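import Pool.Agent.W770.PC.Stms

/-! PC-term (helper782): the stopping time stops, locally uniformly in time. -/

set_option autoImplicit false

open MeasureTheory Set Filter Topology
open scoped ENNReal NNReal

namespace Pool.Agent.W782.PC

open Pool.Agent.W770.PC

theorem hess_le (h1 : S_der) {F h : ℝ × ℝ → ℝ} (hF : ContDiff ℝ (⊤ : ℕ∞) F)
    (hh : ContDiff ℝ (⊤ : ℕ∞) h) (t : ℝ) (y : ℝ × ℝ) :
    hess (ph F h t) y ≤ hess F y + |t| * hess h y := by
  obtain ⟨sF1, sF2, -, -, -, -, eF, -, -⟩ := h1 F hF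
  obtain ⟨sh1, sh2, -, -, -, -, -, -, -⟩ := h1 h hh
  obtain ⟨-, -, -, -, -, -, eF1, -, -⟩ := h1 (d1 F) sF1
  obtain ⟨-, -, -, -, -, -, eF2, -, -⟩ := h1 (d2 F) sF2
  have e1 : d1 (ph F h t) = ph (d1 F) (d1 h) t := by
    funext y
    exact (eF h hh t y).1
  have e2 : d2 (ph F h t) = ph (d2 F) (d2 h) t := by
    funext y
    exact (eF h hh t y).2
  unfold hess
  rw [e1, e2, (eF1 (d1 h) sh1 t y).1, (eF2 (d2 h) sh2 t y).1, (eF2 (d2 h) sh2 t y).2]
  have a1 := abs_add_le (d1 (d1 F) y) (t * d1 (d1 h) y)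
  have a2 := abs_add_le (d1 (d2 F) y) (t * d1 (d2 h) y)
  have a3 := abs_add_le (d2 (d2 F) y) (t * d2 (d2 h) y)
  rw [abs_mul] at a1 a2 a3
  linarith

theorem hess_nonneg (g : ℝ × ℝ → ℝ) (y : ℝ × ℝ) : 0 ≤ hess g y := by
  unfold hess
  positivity

theorem term_thm (h1 : S_der) (h2 : S_cell) : S_term := by
  intro F h hF hh T
  have hK : IsCompact Om := (isCompact_Icc).prod isCompact_Icc
  obtain ⟨HF, hHF⟩ := hK.bddAbove_image (h1 F hF).2.2.2.2.2.2.2.1.continuousOn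
  obtain ⟨Hh, hHh⟩ := hK.bddAbove_image (h1 h hh).2.2.2.2.2.2.2.1.continuousOn
  obtain ⟨H, hH⟩ : ∃ H : ℝ, H = HF + |T| * Hh := ⟨_, rfl⟩
  have hb : ∀ t : ℝ, |t| ≤ T → ∀ y ∈ Om, hess (ph F h t) y ≤ H := by
    intro t ht y hy
    have b1 : hess F y ≤ HF := hHF ⟨y, hy, rfl⟩
    have b2 : hess h y ≤ Hh := hHh ⟨y, hy, rfl⟩
    have b3 := hess_le h1 hF hh t y
    have b4 : |t| * hess h y ≤ |T| * Hh := by
      apply mul_le_mul (ht.trans (le_abs_self T)) b2 (hess_nonneg h y) (abs_nonneg T)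
    rw [hH]
    linarith
  obtain ⟨a1, ha1⟩ := pow_unbounded_of_one_lt (H * 4) (by norm_num : (1 : ℝ) < 4)
  refine ⟨a1 + 1, ?_⟩
  intro A hA t ht y
  unfold gg
  apply Finset.prod_eq_zero (Finset.mem_range.2 (show a1 < A by omega))
  unfold Nf
  apply Finset.sum_eq_zero
  intro k hk
  exfalso
  rw [Finset.mem_filter] at hk
  obtain ⟨hkg, hkN⟩ := hk
  have hsub := h2.1 a1 k hkg
  have hvol := h2.2.1 a1 k
  have h3 : ‖∫ y in cell a1 k, hess (ph F h t) y‖ ≤ H * volume.real (cell a1 k) := by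
    apply norm_setIntegral_le_of_norm_le_const
    · rw [hvol]
      exact ENNReal.ofReal_lt_top
    · intro y hy
      rw [Real.norm_of_nonneg (hess_nonneg _ _)]
      exact hb t ht y (hsub hy)
  rw [measureReal_def, hvol, ENNReal.toReal_ofReal (by positivity)] at h3
  have h4 : NN (ph F h t) a1 k ≤ H * (4 * (4 ^ a1)⁻¹) := (le_abs_self _).trans h3
  have h5 : H * (4 * ((4 : ℝ) ^ a1)⁻¹) ≤ 1 := by
    rw [← mul_assoc, ← div_eq_mul_inv, div_le_one (by positivity)]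
    exact ha1.le
  linarith

end Pool.Agent.W782.PC
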